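/-
Module FS of project PI (MP_e49510_nt): formal sums `sum_n f_n t^n` with `t = X/(1-2X)`.
-/
import Mathlib
import Pool.Agent.H22.Pi.Defs

set_option autoImplicit false

namespace Pool.Agent.H51.Pi

open Pool.Agent.H22.Pi Finset

/-! ### The Euler operator -/

theorem coeff_th (N : ℕ) (f : PowerSeries ℚ) :
    PowerSeries.coeff N (th f) = (N : ℚ) * PowerSeries.coeff N f := by
  simp [th]

theorem th_add (f g : PowerSeries ℚ) : th (f + g) = th f + th g := by
  ext N; simp only [coeff_th, map_add]; ring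

theorem th_neg (f : PowerSeries ℚ) : th (-f) = - th f := by
  ext N; simp only [coeff_th, map_neg]; ring

theorem th_sub (f g : PowerSeries ℚ) : th (f - g) = th f - th g := by
  ext N; simp only [coeff_th, map_sub]; ring

theorem th_zero : th 0 = 0 := by
  ext N; simp [coeff_th]

theorem th_mul (f g : PowerSeries ℚ) : th (f * g) = th f * g + f * th g := by
  ext N
  rw [map_add, coeff_th, PowerSeries.coeff_mul, PowerSeries.coeff_mul, PowerSeries.coeff_mul,
    mul_sum, ← sum_add_distrib]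
  refine sum_congr rfl fun p hp => ?_
  rw [HasAntidiagonal.mem_antidiagonal] at hp
  rw [coeff_th, coeff_th, ← hp]
  push_cast
  ring

theorem th_C (c : ℚ) : th (PowerSeries.C c) = 0 := by
  ext N
  rw [coeff_th, PowerSeries.coeff_C]
  split_ifs with h <;> simp [h]

theorem th_one : th 1 = 0 := by
  simpa using th_C 1

theorem th_natCast (n : ℕ) : th (n : PowerSeries ℚ) = 0 := by
  have := th_C (n : ℚ)
  simpa using this

theorem th_X : th PowerSeries.X = PowerSeries.X := by
  ext N
  rw [coeff_th, PowerSeries.coeff_X]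
  split_ifs with h <;> simp [h]

theorem kap_rel : (1 - 2 * PowerSeries.X) * kap = 1 := by
  ext N
  rw [sub_mul, one_mul, map_sub, mul_assoc]
  rcases N with _ | N
  · have h2 : (2 : PowerSeries ℚ) = PowerSeries.C (2 : ℚ) := (map_ofNat _ 2).symm
    rw [h2, PowerSeries.coeff_C_mul, PowerSeries.coeff_zero_X_mul]
    simp [kap]
  · have h2 : (2 : PowerSeries ℚ) = PowerSeries.C (2 : ℚ) := (map_ofNat _ 2).symm
    rw [h2, PowerSeries.coeff_C_mul, PowerSeries.coeff_succ_X_mul]
    simp [kap, pow_succ, PowerSeries.coeff_one, mul_comm]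

theorem th_two : th 2 = 0 := by
  have h2 : (2 : PowerSeries ℚ) = PowerSeries.C (2 : ℚ) := (map_ofNat _ 2).symm
  rw [h2, th_C]

theorem th_kap : th kap = 2 * PowerSeries.X * kap ^ 2 := by
  have h := congrArg th kap_rel
  rw [th_mul, th_sub, th_one, th_mul, th_two, th_X] at h
  linear_combination kap * h - th kap * kap_rel

theorem th_tt : th tt = kap * tt := by
  rw [tt, th_mul, th_X, th_kap]
  linear_combination (-(PowerSeries.X * kap)) * kap_rel

theorem th_tt_pow (n : ℕ) : th (tt ^ n) = n * (kap * tt ^ n) := by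
  induction n with
  | zero => simp [th_one]
  | succ n ih =>
    rw [pow_succ, th_mul, ih, th_tt]
    push_cast
    ring

/-! ### Formal sums -/

/-- The formal sum `sum_n f n * tt^n`. -/
noncomputable def Sm (f : ℕ → PowerSeries ℚ) : PowerSeries ℚ :=
  PowerSeries.mk fun N => ∑ n ∈ range (N + 1), PowerSeries.coeff N (f n * tt ^ n)

theorem coeff_mul_tt_pow (g : PowerSeries ℚ) {N n : ℕ} (h : N < n) :
    PowerSeries.coeff N (g * tt ^ n) = 0 := by
  rw [tt, mul_pow, ← mul_assoc, mul_comm g, mul_assoc, PowerSeries.coeff_X_pow_mul',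
    if_neg (not_le.2 h)]

theorem coeff_Sm (f : ℕ → PowerSeries ℚ) {N M : ℕ} (h : N ≤ M) :
    PowerSeries.coeff N (Sm f) = ∑ n ∈ range (M + 1), PowerSeries.coeff N (f n * tt ^ n) := by
  rw [Sm, PowerSeries.coeff_mk]
  refine sum_subset (range_subset_range.2 (by omega)) fun n _ hn => ?_
  rw [mem_range] at hn
  exact coeff_mul_tt_pow _ (by omega)

theorem Sm_add (f g : ℕ → PowerSeries ℚ) : Sm (fun n => f n + g n) = Sm f + Sm g := by
  ext N
  rw [map_add, coeff_Sm _ le_rfl, coeff_Sm _ le_rfl, coeff_Sm _ le_rfl, ← sum_add_distrib]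
  exact sum_congr rfl fun n _ => by rw [add_mul, map_add]

theorem Sm_mul (g : PowerSeries ℚ) (f : ℕ → PowerSeries ℚ) :
    Sm (fun n => g * f n) = g * Sm f := by
  ext N
  rw [PowerSeries.coeff_mul, coeff_Sm _ le_rfl]
  have h1 : ∀ p ∈ antidiagonal N, PowerSeries.coeff p.1 g * PowerSeries.coeff p.2 (Sm f)
      = ∑ n ∈ range (N + 1), PowerSeries.coeff p.1 g * PowerSeries.coeff p.2 (f n * tt ^ n) := by
    intro p hp
    rw [HasAntidiagonal.mem_antidiagonal] at hp
    rw [coeff_Sm f (show p.2 ≤ N by omega), mul_sum]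
  rw [sum_congr rfl h1, sum_comm]
  refine sum_congr rfl fun n _ => ?_
  rw [mul_assoc, PowerSeries.coeff_mul]

theorem Sm_zero : Sm (fun _ => 0) = 0 := by
  ext N
  rw [coeff_Sm _ le_rfl]
  simp

theorem Sm_shift (f : ℕ → PowerSeries ℚ) : tt * Sm (fun n => f (n + 1)) = Sm f - f 0 := by
  rw [← Sm_mul]
  ext N
  rw [map_sub, coeff_Sm _ le_rfl, coeff_Sm f (Nat.le_succ N),
    sum_range_succ' (fun n => PowerSeries.coeff N (f n * tt ^ n)) N.succ, pow_zero, mul_one,
    add_sub_cancel_right]
  refine sum_congr rfl fun n _ => ?_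
  congr 1
  rw [pow_succ]
  ring

theorem th_Sm (f : ℕ → PowerSeries ℚ) :
    th (Sm f) = Sm (fun n => th (f n)) + kap * Sm (fun n => n * f n) := by
  rw [← Sm_mul, ← Sm_add]
  ext N
  rw [coeff_th, coeff_Sm _ le_rfl, coeff_Sm _ le_rfl, mul_sum]
  refine sum_congr rfl fun n _ => ?_
  rw [← coeff_th, th_mul, th_tt_pow]
  congr 1
  ring

/-! ### The weighted sums -/

/-- `n^b * th^a (Cp n)`. -/
noncomputable def fam (a b n : ℕ) : PowerSeries ℚ := (n : PowerSeries ℚ) ^ b * th^[a] (Cp n)

/-- `F_ab`. -/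
noncomputable def Fs (a b : ℕ) : PowerSeries ℚ := Sm (fam a b)

theorem th_fam (a b n : ℕ) : th (fam a b n) = fam (a + 1) b n := by
  have h : th ((n : PowerSeries ℚ) ^ b) = 0 := by
    have := th_natCast (n ^ b)
    simpa using this
  rw [fam, th_mul, h, zero_mul, zero_add, fam, Function.iterate_succ_apply']

theorem n_fam (a b n : ℕ) : (n : PowerSeries ℚ) * fam a b n = fam a (b + 1) n := by
  rw [fam, fam]; ring

theorem th_Fs (a b : ℕ) : th (Fs a b) = Fs (a + 1) b + kap * Fs a (b + 1) := by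
  rw [Fs, th_Sm]
  simp only [th_fam, n_fam]
  rfl

theorem Cp_zero : Cp 0 = 1 := by
  ext m
  rw [Cp, PowerSeries.coeff_mk, PowerSeries.coeff_one]
  rcases m with _ | m
  · simp [cc]
  · simp only [Nat.add_eq_zero_iff, one_ne_zero, and_false, if_false, Nat.cast_eq_zero]
    rw [cc]
    refine sum_eq_zero fun i _ => ?_
    rcases i with _ | i
    · simp
    · simp

theorem fam_zero (a b : ℕ) (h : 0 < a + b) : fam a b 0 = 0 := by
  rw [fam, Cp_zero]
  rcases b with _ | b
  · rcases a with _ | a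
    · simp at h
    · rw [Function.iterate_succ_apply, th_one]
      have : ∀ k : ℕ, th^[k] 0 = 0 := by
        intro k
        induction k with
        | zero => rfl
        | succ k ih => rw [Function.iterate_succ_apply, th_zero, ih]
      rw [this]; simp
  · simp

theorem tt_Sm_fam_succ (a b : ℕ) (h : 0 < a + b) :
    tt * Sm (fun n => fam a b (n + 1)) = Fs a b := by
  rw [Sm_shift, fam_zero a b h, sub_zero, Fs]

theorem mk_aco : PowerSeries.mk aco = Fs 0 0 := by
  ext N
  rw [Fs, coeff_Sm _ le_rfl, PowerSeries.coeff_mk, aco]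
  refine sum_congr rfl fun n _ => ?_
  simp [fam]

theorem mk_kco : PowerSeries.mk kco = Fs 0 1 := by
  ext N
  rw [Fs, coeff_Sm _ le_rfl, PowerSeries.coeff_mk, kco]
  refine sum_congr rfl fun n _ => ?_
  have h : fam 0 1 n = PowerSeries.C (n : ℚ) * Cp n := by simp [fam]
  rw [h, mul_assoc, PowerSeries.coeff_C_mul]

end Pool.Agent.H51.Pi
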