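/-
Module AN1 of project PI (MP_e49510_nt): positivity, convergence and the values of the double
series `sum_k S_k(x) t^k`, `t = x/(1-2x)`.
-/
import Mathlib
import Pool.Agent.H22.Pi.Defs
import Pool.Agent.H51.Pi.FSser

set_option autoImplicit false

namespace Pool.Agent.H51.Pi

open Pool.Agent.H22.Pi Finset

/-! ### Evaluation of power series with rational coefficients -/

/-- `f` converges absolutely at `x` with sum `s`. -/
def Ev (f : PowerSeries ℚ) (x s : ℝ) : Prop :=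
  Summable (fun n => ‖((PowerSeries.coeff n f : ℚ) : ℝ) * x ^ n‖) ∧
    ∑' n, ((PowerSeries.coeff n f : ℚ) : ℝ) * x ^ n = s

theorem Ev.hasSum {f : PowerSeries ℚ} {x s : ℝ} (h : Ev f x s) :
    HasSum (fun n => ((PowerSeries.coeff n f : ℚ) : ℝ) * x ^ n) s := by
  have := h.1.of_norm.hasSum
  rwa [h.2] at this

theorem cauchy_aux {a b c : ℕ → ℝ} {s t : ℝ} (ha : Summable fun n => ‖a n‖)
    (hb : Summable fun n => ‖b n‖) (hs : ∑' n, a n = s) (ht : ∑' n, b n = t)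
    (hc : ∀ n, c n = ∑ kl ∈ antidiagonal n, a kl.1 * b kl.2) :
    (Summable fun n => ‖c n‖) ∧ ∑' n, c n = s * t := by
  obtain rfl : c = fun n => ∑ kl ∈ antidiagonal n, a kl.1 * b kl.2 := funext hc
  refine ⟨summable_norm_sum_mul_antidiagonal_of_summable_norm ha hb, ?_⟩
  rw [← hs, ← ht]
  exact (tsum_mul_tsum_eq_tsum_sum_antidiagonal_of_summable_norm ha hb).symm

theorem Ev.mul {f g : PowerSeries ℚ} {x s t : ℝ} (hf : Ev f x s) (hg : Ev g x t) :
    Ev (f * g) x (s * t) := by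
  have key : ∀ n, ((PowerSeries.coeff n (f * g) : ℚ) : ℝ) * x ^ n
      = ∑ kl ∈ antidiagonal n, (((PowerSeries.coeff kl.1 f : ℚ) : ℝ) * x ^ kl.1)
        * (((PowerSeries.coeff kl.2 g : ℚ) : ℝ) * x ^ kl.2) := by
    intro n
    rw [PowerSeries.coeff_mul, Rat.cast_sum, sum_mul]
    refine sum_congr rfl fun p hp => ?_
    rw [HasAntidiagonal.mem_antidiagonal] at hp
    rw [← hp, pow_add]
    push_cast
    ring
  exact cauchy_aux (a := fun n => ((PowerSeries.coeff n f : ℚ) : ℝ) * x ^ n)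
    (b := fun n => ((PowerSeries.coeff n g : ℚ) : ℝ) * x ^ n) hf.1 hg.1 hf.2 hg.2 key

theorem Ev_of_finite {f : PowerSeries ℚ} {x : ℝ} (M : ℕ)
    (h : ∀ n, M ≤ n → PowerSeries.coeff n f = 0) :
    Ev f x (∑ n ∈ range M, ((PowerSeries.coeff n f : ℚ) : ℝ) * x ^ n) := by
  constructor
  · refine summable_of_ne_finset_zero (s := range M) fun n hn => ?_
    rw [mem_range, not_lt] at hn
    rw [h n hn]; simp
  · refine tsum_eq_sum fun n hn => ?_
    rw [mem_range, not_lt] at hn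
    rw [h n hn]; simp

theorem Ev_one (x : ℝ) : Ev 1 x 1 := by
  have := Ev_of_finite (f := 1) (x := x) 1 fun n hn => by
    rw [PowerSeries.coeff_one, if_neg (by omega)]
  simpa using this

theorem Ev_X (x : ℝ) : Ev PowerSeries.X x x := by
  have := Ev_of_finite (f := PowerSeries.X) (x := x) 2 fun n hn => by
    rw [PowerSeries.coeff_X, if_neg (by omega)]
  simpa [sum_range_succ, PowerSeries.coeff_X] using this

theorem Ev.pow {f : PowerSeries ℚ} {x s : ℝ} (hf : Ev f x s) (k : ℕ) : Ev (f ^ k) x (s ^ k) := by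
  induction k with
  | zero => simpa using Ev_one x
  | succ k ih => rw [pow_succ, pow_succ]; exact ih.mul hf

theorem Ev_kap {x : ℝ} (h0 : 0 ≤ x) (h1 : x < 1 / 2) : Ev kap x (1 / (1 - 2 * x)) := by
  have h2 : |2 * x| < 1 := by rw [abs_of_nonneg (by linarith)]; linarith
  have key : ∀ n, ((PowerSeries.coeff n kap : ℚ) : ℝ) * x ^ n = (2 * x) ^ n := by
    intro n
    rw [kap, PowerSeries.coeff_mk, mul_pow]
    push_cast
    ring
  constructor
  · simp only [key]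
    exact (summable_geometric_of_norm_lt_one (x := 2 * x) (by simpa using h2)).norm
  · simp only [key]
    rw [tsum_geometric_of_abs_lt_one h2, one_div]

theorem Ev_tt {x : ℝ} (h0 : 0 ≤ x) (h1 : x < 1 / 2) : Ev tt x (x / (1 - 2 * x)) := by
  have := (Ev_X x).mul (Ev_kap h0 h1)
  rw [tt]
  convert this using 1
  ring

/-! ### The polynomials -/

theorem cc_eq_zero {n m : ℕ} (h : 2 * n + 1 ≤ m) : cc n m = 0 := by
  rw [cc]
  refine sum_eq_zero fun i hi => ?_
  rw [mem_range] at hi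
  rcases lt_or_ge n i with h1 | h1
  · rw [Nat.choose_eq_zero_of_lt h1]; simp
  · rw [Nat.choose_eq_zero_of_lt (show n < m - i by omega)]; simp

theorem S2_eq (n : ℕ) (x : ℝ) :
    S2 n x = ∑ m ∈ range (2 * n + 1), (cc n m : ℝ) * x ^ m := by
  have h1 : ∀ m ∈ range (2 * n + 1), (cc n m : ℝ) * x ^ m
      = ∑ p ∈ antidiagonal m, (n.choose p.1 : ℝ) ^ 2 * (n.choose p.2 : ℝ) ^ 2
        * ((p.1 + p.2).choose p.1 : ℝ) * x ^ (p.1 + p.2) := by
    intro m _
    rw [Nat.sum_antidiagonal_eq_sum_range_succ (fun i j => (n.choose i : ℝ) ^ 2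
      * (n.choose j : ℝ) ^ 2 * ((i + j).choose i : ℝ) * x ^ (i + j)) m, cc, Nat.cast_sum, sum_mul]
    refine sum_congr rfl fun i hi => ?_
    rw [mem_range] at hi
    rw [show i + (m - i) = m by omega]
    push_cast
    ring
  rw [sum_congr rfl h1, S2, ← sum_product', sum_sigma']
  refine sum_bij_ne_zero (fun p _ _ => ⟨p.1 + p.2, (p.1, p.2)⟩) ?_ ?_ ?_ ?_
  · intro p hp _
    simp only [mem_product, mem_range] at hp
    simp only [mem_sigma, mem_range, HasAntidiagonal.mem_antidiagonal, and_true]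
    omega
  · intro p _ _ q _ _ h
    have h2 := congrArg (fun s : Σ _ : ℕ, ℕ × ℕ => s.2) h
    exact h2
  · rintro ⟨m, p⟩ hp hne
    simp only [mem_sigma, mem_range, HasAntidiagonal.mem_antidiagonal] at hp
    refine ⟨p, ?_, ?_, ?_⟩
    · simp only [mem_product, mem_range]
      by_contra hcon
      apply hne
      rw [not_and_or] at hcon
      rcases hcon with h | h
      · rw [Nat.choose_eq_zero_of_lt (show n < p.1 by omega)]; simp
      · rw [Nat.choose_eq_zero_of_lt (show n < p.2 by omega)]; simp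
    · exact hne
    · obtain ⟨-, rfl⟩ := hp
      rfl
  · intro p _ _
    rfl

theorem Ev_Cp (n : ℕ) (x : ℝ) : Ev (Cp n) x (S2 n x) := by
  have := Ev_of_finite (f := Cp n) (x := x) (2 * n + 1) fun m hm => by
    rw [Cp, PowerSeries.coeff_mk, cc_eq_zero hm, Nat.cast_zero]
  rw [S2_eq]
  simpa [Cp] using this

/-! ### Bounds -/

theorem sum_choose_sq_le (n : ℕ) :
    ∑ i ∈ range (n + 1), (n.choose i : ℝ) ^ 2 * (1 / 4) ^ i ≤ ((3 / 2 : ℝ) ^ n) ^ 2 := by
  have h : (3 / 2 : ℝ) ^ n = ∑ i ∈ range (n + 1), (n.choose i : ℝ) * (1 / 2) ^ i := by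
    have h2 := add_pow (1 / 2 : ℝ) 1 n
    rw [show (1 / 2 + 1 : ℝ) = 3 / 2 by norm_num] at h2
    rw [h2]
    refine sum_congr rfl fun i _ => ?_
    rw [one_pow]
    ring
  rw [h]
  have h3 : ∀ i ∈ range (n + 1), (n.choose i : ℝ) ^ 2 * (1 / 4) ^ i
      = ((n.choose i : ℝ) * (1 / 2) ^ i) ^ 2 := by
    intro i _
    rw [mul_pow, ← pow_mul, mul_comm i 2, pow_mul]
    norm_num
  rw [sum_congr rfl h3]
  set u : ℕ → ℝ := fun i => (n.choose i : ℝ) * (1 / 2) ^ i with hu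
  have hu0 : ∀ i, 0 ≤ u i := fun i => by rw [hu]; positivity
  rw [sq (∑ i ∈ range (n + 1), u i), sum_mul]
  refine sum_le_sum fun i hi => ?_
  rw [sq]
  exact mul_le_mul_of_nonneg_left (single_le_sum (f := u) (fun j _ => hu0 j) hi) (hu0 i)

theorem S2_nonneg (n : ℕ) {x : ℝ} (h0 : 0 ≤ x) : 0 ≤ S2 n x := by
  rw [S2]
  exact sum_nonneg fun i _ => sum_nonneg fun j _ => by positivity

theorem S2_le (n : ℕ) {x : ℝ} (h0 : 0 ≤ x) (h1 : x ≤ 1 / 8) : S2 n x ≤ (81 / 16) ^ n := by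
  have h2 : ∀ i ∈ range (n + 1), ∀ j ∈ range (n + 1),
      (n.choose i : ℝ) ^ 2 * (n.choose j : ℝ) ^ 2 * ((i + j).choose i : ℝ) * x ^ (i + j)
      ≤ ((n.choose i : ℝ) ^ 2 * (1 / 4) ^ i) * ((n.choose j : ℝ) ^ 2 * (1 / 4) ^ j) := by
    intro i _ j _
    have h3 : ((i + j).choose i : ℝ) ≤ 2 ^ (i + j) := by
      exact_mod_cast Nat.choose_le_two_pow (i + j) i
    have h4 : x ^ (i + j) ≤ (1 / 8) ^ (i + j) := pow_le_pow_left₀ h0 h1 _
    have h5 : ((i + j).choose i : ℝ) * x ^ (i + j) ≤ (1 / 4) ^ i * (1 / 4) ^ j := by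
      calc ((i + j).choose i : ℝ) * x ^ (i + j) ≤ 2 ^ (i + j) * (1 / 8) ^ (i + j) := by
            gcongr
        _ = (1 / 4) ^ i * (1 / 4) ^ j := by rw [← mul_pow, ← pow_add]; norm_num
    calc (n.choose i : ℝ) ^ 2 * (n.choose j : ℝ) ^ 2 * ((i + j).choose i : ℝ) * x ^ (i + j)
        = ((n.choose i : ℝ) ^ 2 * (n.choose j : ℝ) ^ 2)
          * (((i + j).choose i : ℝ) * x ^ (i + j)) := by ring
      _ ≤ ((n.choose i : ℝ) ^ 2 * (n.choose j : ℝ) ^ 2) * ((1 / 4) ^ i * (1 / 4) ^ j) := by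
          gcongr
      _ = _ := by ring
  calc S2 n x ≤ ∑ i ∈ range (n + 1), ∑ j ∈ range (n + 1),
        ((n.choose i : ℝ) ^ 2 * (1 / 4) ^ i) * ((n.choose j : ℝ) ^ 2 * (1 / 4) ^ j) := by
        rw [S2]
        exact sum_le_sum fun i hi => sum_le_sum fun j hj => h2 i hi j hj
    _ = (∑ i ∈ range (n + 1), (n.choose i : ℝ) ^ 2 * (1 / 4) ^ i) ^ 2 := by
        rw [sq, sum_mul_sum]
    _ ≤ (((3 / 2 : ℝ) ^ n) ^ 2) ^ 2 := by
        have := sum_choose_sq_le n
        have h6 : (0 : ℝ) ≤ ∑ i ∈ range (n + 1), (n.choose i : ℝ) ^ 2 * (1 / 4) ^ i :=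
          sum_nonneg fun i _ => by positivity
        gcongr
    _ = (81 / 16) ^ n := by
        rw [← pow_mul, ← pow_mul, show n * (2 * 2) = 4 * n by ring, pow_mul]
        norm_num

theorem term_bound (n : ℕ) {x : ℝ} (h0 : 0 ≤ x) (h1 : x ≤ 1 / 8) :
    S2 n x * (x / (1 - 2 * x)) ^ n ≤ (27 / 32) ^ n := by
  have ht : x / (1 - 2 * x) ≤ 1 / 6 := by
    rw [div_le_iff₀ (by linarith)]
    linarith
  have ht0 : 0 ≤ x / (1 - 2 * x) := div_nonneg h0 (by linarith)
  calc S2 n x * (x / (1 - 2 * x)) ^ n ≤ (81 / 16) ^ n * (1 / 6) ^ n := by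
        have := S2_le n h0 h1
        have h2 := S2_nonneg n h0
        gcongr
    _ = (27 / 32) ^ n := by rw [← mul_pow]; norm_num

/-! ### Coefficients are nonnegative -/

theorem nonneg_mul {f g : PowerSeries ℚ} (hf : ∀ n, 0 ≤ PowerSeries.coeff n f)
    (hg : ∀ n, 0 ≤ PowerSeries.coeff n g) (n : ℕ) : 0 ≤ PowerSeries.coeff n (f * g) := by
  rw [PowerSeries.coeff_mul]
  exact sum_nonneg fun p _ => mul_nonneg (hf _) (hg _)

theorem nonneg_tt (n : ℕ) : 0 ≤ PowerSeries.coeff n tt := by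
  refine nonneg_mul (fun n => ?_) (fun n => ?_) n
  · rw [PowerSeries.coeff_X]; split_ifs <;> norm_num
  · rw [kap, PowerSeries.coeff_mk]; positivity

theorem nonneg_tt_pow (k n : ℕ) : 0 ≤ PowerSeries.coeff n (tt ^ k) := by
  induction k generalizing n with
  | zero => rw [pow_zero, PowerSeries.coeff_one]; split_ifs <;> norm_num
  | succ k ih => rw [pow_succ]; exact nonneg_mul ih nonneg_tt n

theorem nonneg_b (k n : ℕ) : 0 ≤ PowerSeries.coeff n (Cp k * tt ^ k) :=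
  nonneg_mul (fun m => by rw [Cp, PowerSeries.coeff_mk]; positivity) (nonneg_tt_pow k) n

/-! ### Tonelli -/

theorem tonelli (w : ℕ → ℝ) (hw : ∀ k, 0 ≤ w k) {x : ℝ} (h0 : 0 ≤ x) (h1 : x ≤ 1 / 8)
    (hs : Summable fun k => w k * (S2 k x * (x / (1 - 2 * x)) ^ k)) (A : ℕ → ℝ)
    (hA : ∀ N, A N = ∑ k ∈ range (N + 1),
      w k * ((PowerSeries.coeff N (Cp k * tt ^ k) : ℚ) : ℝ)) :
    Summable (fun N => A N * x ^ N) ∧
    HasSum (fun k => w k * (S2 k x * (x / (1 - 2 * x)) ^ k)) (∑' N, A N * x ^ N) := by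
  set F : ℕ → ℕ → ℝ := fun k N => w k * (((PowerSeries.coeff N (Cp k * tt ^ k) : ℚ) : ℝ) * x ^ N)
    with hF
  have hev : ∀ k, Ev (Cp k * tt ^ k) x (S2 k x * (x / (1 - 2 * x)) ^ k) := fun k =>
    (Ev_Cp k x).mul ((Ev_tt h0 (by linarith)).pow k)
  have hin : ∀ k, HasSum (F k) (w k * (S2 k x * (x / (1 - 2 * x)) ^ k)) := fun k =>
    (hev k).hasSum.mul_left (w k)
  have hnn : ∀ k N, 0 ≤ F k N := fun k N =>
    mul_nonneg (hw k) (mul_nonneg (by exact_mod_cast nonneg_b k N) (pow_nonneg h0 N))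
  have hsum : Summable (Function.uncurry F) := by
    refine (summable_prod_of_nonneg (f := Function.uncurry F) (fun p => hnn p.1 p.2)).2
      ⟨fun k => (hin k).summable, ?_⟩
    refine hs.congr fun k => ?_
    exact (hin k).tsum_eq.symm
  have hout : ∀ N, HasSum (fun k => F k N) (A N * x ^ N) := by
    intro N
    have h2 : ∑ k ∈ range (N + 1), F k N = A N * x ^ N := by
      rw [hA, sum_mul]
      exact sum_congr rfl fun k _ => by rw [hF]; ring
    rw [← h2]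
    refine hasSum_sum_of_ne_finset_zero fun k hk => ?_
    rw [mem_range, not_lt] at hk
    simp only [hF]
    rw [coeff_mul_tt_pow _ (by omega)]
    simp
  have hsw : Summable (fun N => ∑' k, F k N) := hsum.prod_symm.prod
  refine ⟨hsw.congr fun N => (hout N).tsum_eq, ?_⟩
  have h3 : ∑' N, A N * x ^ N = ∑' k, w k * (S2 k x * (x / (1 - 2 * x)) ^ k) := by
    rw [← tsum_congr fun N => (hout N).tsum_eq, ← tsum_congr fun k => (hin k).tsum_eq]
    exact hsum.tsum_comm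
  rw [h3]
  exact hs.hasSum

theorem summable_one {x : ℝ} (h0 : 0 ≤ x) (h1 : x ≤ 1 / 8) :
    Summable fun k => (1 : ℝ) * (S2 k x * (x / (1 - 2 * x)) ^ k) := by
  have hg : Summable fun k : ℕ => (27 / 32 : ℝ) ^ k :=
    summable_geometric_of_lt_one (by norm_num) (by norm_num)
  refine Summable.of_nonneg_of_le (fun k => ?_) (fun k => ?_) hg
  · have := S2_nonneg k h0
    have : 0 ≤ x / (1 - 2 * x) := div_nonneg h0 (by linarith)
    positivity
  · rw [one_mul]; exact term_bound k h0 h1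

theorem summable_k {x : ℝ} (h0 : 0 ≤ x) (h1 : x ≤ 1 / 8) :
    Summable fun k : ℕ => (k : ℝ) * (S2 k x * (x / (1 - 2 * x)) ^ k) := by
  have hg : Summable fun k : ℕ => (k : ℝ) ^ 1 * (27 / 32 : ℝ) ^ k :=
    summable_pow_mul_geometric_of_norm_lt_one 1 (by rw [Real.norm_eq_abs, abs_of_pos] <;> norm_num)
  refine Summable.of_nonneg_of_le (fun k => ?_) (fun k => ?_) hg
  · have := S2_nonneg k h0
    have : 0 ≤ x / (1 - 2 * x) := div_nonneg h0 (by linarith)
    positivity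
  · rw [pow_one]
    exact mul_le_mul_of_nonneg_left (term_bound k h0 h1) (Nat.cast_nonneg k)

theorem an1 : An1Stmt := by
  have hA : ∀ N, ((aco N : ℚ) : ℝ) = ∑ k ∈ range (N + 1),
      (1 : ℝ) * ((PowerSeries.coeff N (Cp k * tt ^ k) : ℚ) : ℝ) := by
    intro N
    rw [aco, Rat.cast_sum]
    exact sum_congr rfl fun k _ => (one_mul _).symm
  have hK : ∀ N, ((kco N : ℚ) : ℝ) = ∑ k ∈ range (N + 1),
      (k : ℝ) * ((PowerSeries.coeff N (Cp k * tt ^ k) : ℚ) : ℝ) := by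
    intro N
    rw [kco, Rat.cast_sum]
    refine sum_congr rfl fun k _ => ?_
    push_cast
    ring
  have t1 : ∀ x : ℝ, 0 ≤ x → x ≤ 1 / 8 → _ := fun x h0 h1 =>
    tonelli (fun _ => 1) (fun _ => zero_le_one) h0 h1 (summable_one h0 h1)
      (fun N => ((aco N : ℚ) : ℝ)) hA
  have t2 : ∀ x : ℝ, 0 ≤ x → x ≤ 1 / 8 → _ := fun x h0 h1 =>
    tonelli (fun k => (k : ℝ)) (fun k => Nat.cast_nonneg k) h0 h1 (summable_k h0 h1)
      (fun N => ((kco N : ℚ) : ℝ)) hK
  refine ⟨fun N => sum_nonneg fun k _ => nonneg_b k N, ?_,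
    (t1 (1 / 8) (by norm_num) le_rfl).1, (t2 (1 / 8) (by norm_num) le_rfl).1,
    fun x h0 h1 => ⟨?_, ?_⟩⟩
  · rw [aco, zero_add, sum_range_one, pow_zero, mul_one, Cp_zero, PowerSeries.coeff_one, if_pos rfl]
  · have := (t1 x h0 h1).2
    simpa using this
  · have := (t2 x h0 h1).2
    simpa [mul_assoc] using this

end Pool.Agent.H51.Pi
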