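/-
Module FS of project PI (MP_e49510_nt): the formal power series algebra. The two recurrences for
the coefficients give six relations between the weighted sums `Fs a b`; the order three equation
and the relation for the weighted sum follow from them by algebra modulo `(1 - 2 X) kap = 1`.
-/
import Mathlib
import Pool.Agent.H22.Pi.Defs

set_option autoImplicit false

namespace Pool.Agent.H51.Pi

open Pool.Agent.H22.Pi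

/-! ### Pure algebra -/

theorem alg_first {R : Type*} [CommRing R] (X K F00 F01 F02 F03 F10 F11 F12 F20 F21 F30 : R)
    (hK : (1 - 2 * X) * K = 1)
    (e1 : (6*X*K + 2*X^2*K + (-4)*X^3*K)*F00
      + (12*X*K + 16*X^2*K + (-16)*X^3*K)*F01
      + ((-6) + 6*X*K + 8*X^2*K)*F02
      + (6*X*K + (-7)*X^2*K + 2*X^3*K)*F10
      + (6 + 6*X*K + 8*X^2*K + (-16)*X^3*K)*F11
      + ((-1) + 3*X*K + (-9)*X^2*K + 6*X^3*K)*F20 = 0)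
    (e3 : ((-24)*X^2*K + 22*X^3*K + (-4)*X^4*K)*F00
      + ((-60)*X^2*K + 40*X^3*K)*F01
      + (26*X + (-26)*X^2*K)*F02
      + ((-6)*X*K + (-5)*X^2*K + 15*X^3*K + (-6)*X^4*K)*F10
      + (6 + (-30)*X + (-6)*X*K + (-30)*X^2*K + 40*X^3*K)*F11
      + ((-7) + 9*X + (-5)*X*K + 14*X^2*K + (-7)*X^3*K + (-2)*X^4*K)*F20 = 0)
    (e1t : (6*X*K + 2*X^2*K + (-4)*X^3*K)*F00
      + (18*X*K + 18*X^2*K + (-20)*X^3*K)*F01
      + (18*X*K + 24*X^2*K + (-16)*X^3*K)*F02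
      + ((-6) + 6*X*K + 8*X^2*K)*F03
      + (6*X*K + (-7)*X^2*K + 2*X^3*K)*F10
      + (12*X*K + 1*X^2*K + (-14)*X^3*K)*F11
      + (6 + 6*X*K + 8*X^2*K + (-16)*X^3*K)*F12
      + (3*X*K + (-9)*X^2*K + 6*X^3*K)*F20
      + ((-1) + 3*X*K + (-9)*X^2*K + 6*X^3*K)*F21 = 0)
    (e3t : ((-24)*X^2*K + 22*X^3*K + (-4)*X^4*K)*F00
      + ((-84)*X^2*K + 62*X^3*K + (-4)*X^4*K)*F01
      + ((-86)*X^2*K + 40*X^3*K)*F02
      + (26*X + (-26)*X^2*K)*F03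
      + ((-6)*X*K + (-5)*X^2*K + 15*X^3*K + (-6)*X^4*K)*F10
      + ((-12)*X*K + (-35)*X^2*K + 55*X^3*K + (-6)*X^4*K)*F11
      + (6 + (-30)*X + (-6)*X*K + (-30)*X^2*K + 40*X^3*K)*F12
      + ((-5)*X*K + 14*X^2*K + (-7)*X^3*K + (-2)*X^4*K)*F20
      + ((-7) + 9*X + (-5)*X*K + 14*X^2*K + (-7)*X^3*K + (-2)*X^4*K)*F21 = 0)
    (e1x : (2*X^2*K + (-8)*X^3*K)*F00
      + (16*X^2*K + (-32)*X^3*K)*F01
      + (8*X^2*K)*F02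
      + (6*X*K + (-5)*X^2*K)*F10
      + (12*X*K + 24*X^2*K + (-48)*X^3*K)*F11
      + ((-6) + 6*X*K + 8*X^2*K)*F12
      + (6*X*K + (-16)*X^2*K + 14*X^3*K)*F20
      + (6 + 6*X*K + 8*X^2*K + (-16)*X^3*K)*F21
      + ((-1) + 3*X*K + (-9)*X^2*K + 6*X^3*K)*F30 = 0)
    (e3x : ((-24)*X^2*K + 44*X^3*K + (-12)*X^4*K)*F00
      + ((-60)*X^2*K + 80*X^3*K)*F01
      + (26*X + (-26)*X^2*K)*F02
      + ((-29)*X^2*K + 52*X^3*K + (-22)*X^4*K)*F10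
      + ((-30)*X + (-90)*X^2*K + 120*X^3*K)*F11
      + (26*X + (-26)*X^2*K)*F12
      + (9*X + (-6)*X*K + 9*X^2*K + 1*X^3*K + (-12)*X^4*K)*F20
      + (6 + (-30)*X + (-6)*X*K + (-30)*X^2*K + 40*X^3*K)*F21
      + ((-7) + 9*X + (-5)*X*K + 14*X^2*K + (-7)*X^3*K + (-2)*X^4*K)*F30 = 0) :
    4 * (3 - 2 * X) ^ 2 * (l0 X * F00 + l1 X * ((1*K)*F01
      + (1)*F10)
      + l2 X * ((2*X*K^2)*F01
      + (1*K^2)*F02
      + (2*K)*F11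
      + (1)*F20)
      + l3 X * ((2*X*K^2 + 8*X^2*K^3)*F01
      + (6*X*K^3)*F02
      + (1*K^3)*F03
      + (6*X*K^2)*F11
      + (3*K^2)*F12
      + (3*K)*F21
      + (1)*F30)) = 0 := by
  simp only [l0, l1, l2, l3]
  linear_combination ((36*X + 420*X^2 + (-2768)*X^3 + 13456*X^4 + (-33792)*X^5 + 47232*X^6 + (-38400)*X^7 + 16896*X^8 + (-3072)*X^9)*F00
      + (72*X*K + (-1176)*X^2*K + 608*X^3*K + 12480*X^4*K + (-34848)*X^5*K + 45184*X^6*K + (-34048)*X^7*K + 14336*X^8*K + (-2560)*X^9*K + 288*X^2*K^2 + (-3264)*X^3*K^2 + 8864*X^4*K^2 + 256*X^5*K^2 + (-31616)*X^6*K^2 + 48128*X^7*K^2 + (-33280)*X^8*K^2 + 12288*X^9*K^2 + (-2048)*X^10*K^2)*F01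
      + ((-1824)*X^2 + 16480*X^3 + (-55872)*X^4 + 87040*X^5 + (-59904)*X^6 + 13312*X^7 + (-108)*X*K + (-1476)*X^2*K + 7080*X^3*K + (-11664)*X^4*K + 12288*X^5*K + (-9408)*X^6*K + 4224*X^7*K + (-768)*X^8*K + 216*X*K^2 + (-2448)*X^2*K^2 + 6648*X^3*K^2 + 192*X^4*K^2 + (-23712)*X^5*K^2 + 36096*X^6*K^2 + (-24960)*X^7*K^2 + 9216*X^8*K^2 + (-1536)*X^9*K^2)*F02
      + (36 + (-228)*X + (-200)*X^2 + 4784*X^3 + (-14752)*X^4 + 17792*X^5 + (-6656)*X^6 + 36*K + (-336)*X*K + 436*X^2*K + 904*X^3*K + (-2144)*X^4*K + 1728*X^5*K + (-704)*X^6*K + 128*X^7*K + 36*K^2 + (-408)*X*K^2 + 1108*X^2*K^2 + 32*X^3*K^2 + (-3952)*X^4*K^2 + 6016*X^5*K^2 + (-4160)*X^6*K^2 + 1536*X^7*K^2 + (-256)*X^8*K^2)*F03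
      + (180*X + 156*X^2 + (-7432)*X^3 + 34400*X^4 + (-78080)*X^5 + 100736*X^6 + (-76544)*X^7 + 32000*X^8 + (-5632)*X^9)*F10
      + ((-72)*X + 2568*X^2 + (-20688)*X^3 + 67488*X^4 + (-102336)*X^5 + 69120*X^6 + (-15360)*X^7 + 216*X*K + (-2448)*X^2*K + 6648*X^3*K + 192*X^4*K + (-23712)*X^5*K + 36096*X^6*K + (-24960)*X^7*K + 9216*X^8*K + (-1536)*X^9*K)*F11
      + (108 + (-828)*X + 624*X^2 + 8704*X^3 + (-33024)*X^4 + 54976*X^5 + (-44544)*X^6 + 13312*X^7 + 108*K + (-1224)*X*K + 3324*X^2*K + 96*X^3*K + (-11856)*X^4*K + 18048*X^5*K + (-12480)*X^6*K + 4608*X^7*K + (-768)*X^8*K)*F12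
      + (408*X + (-2360)*X^2 + 4272*X^3 + 3152*X^4 + (-26976)*X^5 + 49344*X^6 + (-43392)*X^7 + 18432*X^8 + (-3072)*X^9)*F20
      + (108 + (-816)*X + 5788*X^2 + (-26040)*X^3 + 64976*X^4 + (-88608)*X^5 + 59904*X^6 + (-15360)*X^7)*F21
      + (576*X + (-4656)*X^2 + 15280*X^3 + (-25472)*X^4 + 20864*X^5 + (-4160)*X^6 + (-5248)*X^7 + 3328*X^8 + (-512)*X^9)*F30) * hK
      + 2 * (3 - 2 * X) * ((((-27) + 168*X + (-353)*X^2 + 184*X^3 + 284*X^4 + (-304)*X^5)) * e1x + (((-1) + (-94)*X + 499*X^2 + (-924)*X^3 + 620*X^4)) * e1t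
        + ((3 + (-23)*X + 84*X^2 + (-188)*X^3 + 240*X^4 + (-128)*X^5)) * e3x + (((-23) + 113*X + (-184)*X^2 + 68*X^3 + 64*X^4)) * e3t)
      + 2 * (((39*X + (-173)*X^2 + (-30)*X^3 + 860*X^4 + (-840)*X^5)) * e1 + ((12*X^2 + (-144)*X^3 + 384*X^4 + (-288)*X^5)) * e3)

theorem alg_second {R : Type*} [CommRing R] (X K F00 F01 F02 F10 F11 F20 : R)
    (hK : (1 - 2 * X) * K = 1)
    (e1 : (6*X*K + 2*X^2*K + (-4)*X^3*K)*F00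
      + (12*X*K + 16*X^2*K + (-16)*X^3*K)*F01
      + ((-6) + 6*X*K + 8*X^2*K)*F02
      + (6*X*K + (-7)*X^2*K + 2*X^3*K)*F10
      + (6 + 6*X*K + 8*X^2*K + (-16)*X^3*K)*F11
      + ((-1) + 3*X*K + (-9)*X^2*K + 6*X^3*K)*F20 = 0)
    (e3 : ((-24)*X^2*K + 22*X^3*K + (-4)*X^4*K)*F00
      + ((-60)*X^2*K + 40*X^3*K)*F01
      + (26*X + (-26)*X^2*K)*F02
      + ((-6)*X*K + (-5)*X^2*K + 15*X^3*K + (-6)*X^4*K)*F10
      + (6 + (-30)*X + (-6)*X*K + (-30)*X^2*K + 40*X^3*K)*F11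
      + ((-7) + 9*X + (-5)*X*K + 14*X^2*K + (-7)*X^3*K + (-2)*X^4*K)*F20 = 0) :
    2 * (3 - 2 * X) * (((-1)*X + (-2)*X^2 + 4*X^3)*F00
      + ((-1)*X + (-6)*X^2 + 12*X^3 + (-1)*X*K + 4*X^3*K)*F01
      + (1*K + (-3)*X*K + (-4)*X^2*K + 12*X^3*K)*F02
      + ((-2)*X + 2*X^2)*F10
      + (1 + (-3)*X + (-4)*X^2 + 12*X^3 + (-1)*K + 1*X*K + 4*X^2*K + (-4)*X^3*K)*F11
      + ((-1) + 1*X + 4*X^2 + (-4)*X^3)*F20) = 0 := by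
  linear_combination ((6*X + 8*X^2 + (-32)*X^3 + 16*X^4)*F00
      + (6*X + 32*X^2 + (-96)*X^3 + 48*X^4)*F01
      + (6 + (-4)*X + (-16)*X^2)*F02
      + (12*X + (-20)*X^2 + 8*X^3)*F10
      + ((-6) + 10*X + 36*X^2 + (-88)*X^3 + 48*X^4)*F11
      + (8*X + (-32)*X^2 + 40*X^3 + (-16)*X^4)*F20) * hK - (1 - 5 * X + 6 * X ^ 2) * e1 - (-1 + 2 * X) * e3

end Pool.Agent.H51.Pi
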