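/-
Module FS of project PI (MP_e49510_nt): the differential equation for `sum_n S_n(x) t^n`,
`t = x/(1-2x)`, and the relation for the weighted sum, from the two recurrences.
-/
import Mathlib
import Pool.Agent.H22.Pi.Defs
import Pool.Agent.H51.Pi.FSalg
import Pool.Agent.H51.Pi.FSser

set_option autoImplicit false

namespace Pool.Agent.H51.Pi

open Pool.Agent.H22.Pi Finset

theorem coeff_nat_mul (n m : ℕ) (f : PowerSeries ℚ) :
    PowerSeries.coeff m ((n : PowerSeries ℚ) * f) = (n : ℚ) * PowerSeries.coeff m f := by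
  have h : (n : PowerSeries ℚ) = PowerSeries.C (n : ℚ) := (map_natCast _ n).symm
  rw [h, PowerSeries.coeff_C_mul]

theorem coeff_ofNat_mul (k m : ℕ) [k.AtLeastTwo] (f : PowerSeries ℚ) :
    PowerSeries.coeff m ((ofNat(k) : PowerSeries ℚ) * f)
      = (ofNat(k) : ℚ) * PowerSeries.coeff m f := by
  have h : (ofNat(k) : PowerSeries ℚ) = PowerSeries.C (ofNat(k) : ℚ) :=
    (map_ofNat _ k).symm
  rw [h, PowerSeries.coeff_C_mul]

theorem coeff_X_mul_if (m : ℕ) (f : PowerSeries ℚ) :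
    PowerSeries.coeff m (PowerSeries.X * f)
      = if m < 1 then 0 else PowerSeries.coeff (m - 1) f := by
  rcases m with _ | m
  · simp
  · rw [PowerSeries.coeff_succ_X_mul]; simp

theorem coeff_X_pow_mul_if (k m : ℕ) (f : PowerSeries ℚ) :
    PowerSeries.coeff m (PowerSeries.X ^ k * f)
      = if m < k then 0 else PowerSeries.coeff (m - k) f := by
  rw [PowerSeries.coeff_X_pow_mul']
  by_cases h : k ≤ m
  · rw [if_pos h, if_neg (not_lt.2 h)]
  · rw [if_neg h, if_pos (not_le.1 h)]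

theorem coeff_Cp (n m : ℕ) : PowerSeries.coeff m (Cp n) = (cc n m : ℚ) := by
  simp [Cp]

/-- The first recurrence as a power series identity. -/
theorem rec1_ps (h1 : Rec1Stmt) (n : ℕ) :
    (-th (th (Cp (n + 1))) + 6 * (((n + 1 : ℕ) : PowerSeries ℚ) * th (Cp (n + 1)))
        - 6 * (((n + 1 : ℕ) : PowerSeries ℚ) * (((n + 1 : ℕ) : PowerSeries ℚ) * Cp (n + 1))))
      + (6 * Cp n + 6 * th (Cp n) + 12 * ((n : PowerSeries ℚ) * Cp n) + 3 * th (th (Cp n)) + 6 * ((n : PowerSeries ℚ) * th (Cp n))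
        + 6 * ((n : PowerSeries ℚ) * ((n : PowerSeries ℚ) * Cp n)))
      + PowerSeries.X * (2 * Cp n - 7 * th (Cp n) + 16 * ((n : PowerSeries ℚ) * Cp n) - 9 * th (th (Cp n))
        + 8 * ((n : PowerSeries ℚ) * th (Cp n)) + 8 * ((n : PowerSeries ℚ) * ((n : PowerSeries ℚ) * Cp n)))
      + PowerSeries.X ^ 2 * (-(4 * Cp n) + 2 * th (Cp n) - 16 * ((n : PowerSeries ℚ) * Cp n) + 6 * th (th (Cp n))
        - 16 * ((n : PowerSeries ℚ) * th (Cp n))) = 0 := by
  ext m
  have h := h1 n m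
  simp only [map_add, map_sub, map_neg, coeff_X_mul_if, coeff_X_pow_mul_if, coeff_ofNat_mul,
    coeff_nat_mul, coeff_th, coeff_Cp, map_zero]
  have h' := congrArg (fun z : ℤ => (z : ℚ)) h
  simp only [Int.cast_zero] at h'
  refine Eq.trans ?_ h'
  by_cases m2 : m < 2
  · by_cases m1 : m < 1
    · simp only [m1, m2, if_true]
      push_cast
      ring
    · have : m = 1 := by omega
      subst this
      norm_num
      ring
  · have m1 : ¬ m < 1 := by omega
    obtain ⟨k, rfl⟩ : ∃ k, m = k + 2 := ⟨m - 2, by omega⟩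
    simp only [m1, m2, if_false, Nat.add_sub_cancel, show k + 2 - 1 = k + 1 from rfl]
    push_cast
    ring

/-- The second recurrence as a power series identity. -/
theorem rec3_ps (h3 : Rec3Stmt) (n : ℕ) :
    (-(7 * th (th (Cp (n + 1)))) + 6 * (((n + 1 : ℕ) : PowerSeries ℚ) * th (Cp (n + 1))))
      + PowerSeries.X * (9 * th (th (Cp (n + 1))) - 30 * (((n + 1 : ℕ) : PowerSeries ℚ) * th (Cp (n + 1)))
        + 26 * (((n + 1 : ℕ) : PowerSeries ℚ) * (((n + 1 : ℕ) : PowerSeries ℚ) * Cp (n + 1))))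
      + (-(6 * th (Cp n)) - 5 * th (th (Cp n)) - 6 * ((n : PowerSeries ℚ) * th (Cp n)))
      + PowerSeries.X * (-(24 * Cp n) - 5 * th (Cp n) - 60 * ((n : PowerSeries ℚ) * Cp n) + 14 * th (th (Cp n))
        - 30 * ((n : PowerSeries ℚ) * th (Cp n)) - 26 * ((n : PowerSeries ℚ) * ((n : PowerSeries ℚ) * Cp n)))
      + PowerSeries.X ^ 2 * (22 * Cp n + 15 * th (Cp n) + 40 * ((n : PowerSeries ℚ) * Cp n) - 7 * th (th (Cp n))
        + 40 * ((n : PowerSeries ℚ) * th (Cp n)))
      + PowerSeries.X ^ 3 * (-(4 * Cp n) - 6 * th (Cp n) - 2 * th (th (Cp n))) = 0 := by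
  ext m
  have h := h3 n m
  simp only [map_add, map_sub, map_neg, coeff_X_mul_if, coeff_X_pow_mul_if, coeff_ofNat_mul,
    coeff_nat_mul, coeff_th, coeff_Cp, map_zero]
  have h' := congrArg (fun z : ℤ => (z : ℚ)) h
  simp only [Int.cast_zero] at h'
  refine Eq.trans ?_ h'
  by_cases m3 : m < 3
  · obtain rfl | rfl | rfl : m = 0 ∨ m = 1 ∨ m = 2 := by omega
    · norm_num
    · norm_num
      ring
    · norm_num
      ring
  · have m1 : ¬ m < 1 := by omega
    have m2 : ¬ m < 2 := by omega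
    obtain ⟨k, rfl⟩ : ∃ k, m = k + 3 := ⟨m - 3, by omega⟩
    simp only [m1, m2, m3, if_false, Nat.add_sub_cancel, show k + 3 - 1 = k + 2 from rfl,
      show k + 3 - 2 = k + 1 from rfl]
    push_cast
    ring

end Pool.Agent.H51.Pi
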