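/-
Module FS of project PI (MP_e49510_nt): the six relations between the weighted sums.
-/
import Mathlib
import Pool.Agent.H22.Pi.Defs
import Pool.Agent.H51.Pi.FSalg
import Pool.Agent.H51.Pi.FSser
import Pool.Agent.H51.Pi.FSrec

set_option autoImplicit false

namespace Pool.Agent.H51.Pi

open Pool.Agent.H22.Pi Finset

/-- `Sm` as a linear map over the power series ring. -/
noncomputable def SmL : (ℕ → PowerSeries ℚ) →ₗ[PowerSeries ℚ] PowerSeries ℚ where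
  toFun := Sm
  map_add' f g := Sm_add f g
  map_smul' c f := Sm_mul c f

theorem SmL_fam (a b : ℕ) : SmL (fam a b) = Fs a b := rfl

theorem tt_SmL (a b : ℕ) (h : 0 < a + b) : tt * SmL (fun n => fam a b (n + 1)) = Fs a b :=
  tt_Sm_fam_succ a b h

theorem th_ofNat_mul (k : ℕ) [k.AtLeastTwo] (f : PowerSeries ℚ) :
    th ((ofNat(k) : PowerSeries ℚ) * f) = (ofNat(k) : PowerSeries ℚ) * th f := by
  have h : (ofNat(k) : PowerSeries ℚ) = PowerSeries.C (ofNat(k) : ℚ) :=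
    (map_ofNat _ k).symm
  rw [h, th_mul, th_C, zero_mul, zero_add]

theorem rel_E1 (h : Rec1Stmt) :
    ((-6) * Fs 0 2 + 6 * Fs 1 1 + (-1) * Fs 2 0)
      + tt * (6 * Fs 0 0
        + 12 * Fs 0 1
        + 6 * Fs 0 2
        + 6 * Fs 1 0
        + 6 * Fs 1 1
        + 3 * Fs 2 0
        + 2 * PowerSeries.X ^ 1 * Fs 0 0
        + 16 * PowerSeries.X ^ 1 * Fs 0 1
        + 8 * PowerSeries.X ^ 1 * Fs 0 2
        + (-7) * PowerSeries.X ^ 1 * Fs 1 0
        + 8 * PowerSeries.X ^ 1 * Fs 1 1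
        + (-9) * PowerSeries.X ^ 1 * Fs 2 0
        + (-4) * PowerSeries.X ^ 2 * Fs 0 0
        + (-16) * PowerSeries.X ^ 2 * Fs 0 1
        + 2 * PowerSeries.X ^ 2 * Fs 1 0
        + (-16) * PowerSeries.X ^ 2 * Fs 1 1
        + 6 * PowerSeries.X ^ 2 * Fs 2 0) = 0 := by
  have key : (((-6) : PowerSeries ℚ) • (fun n => fam 0 2 (n + 1))
      + (6 : PowerSeries ℚ) • (fun n => fam 1 1 (n + 1))
      + ((-1) : PowerSeries ℚ) • (fun n => fam 2 0 (n + 1))
      + (6 : PowerSeries ℚ) • fam 0 0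
      + (12 : PowerSeries ℚ) • fam 0 1
      + (6 : PowerSeries ℚ) • fam 0 2
      + (6 : PowerSeries ℚ) • fam 1 0
      + (6 : PowerSeries ℚ) • fam 1 1
      + (3 : PowerSeries ℚ) • fam 2 0
      + (2 * PowerSeries.X ^ 1 : PowerSeries ℚ) • fam 0 0
      + (16 * PowerSeries.X ^ 1 : PowerSeries ℚ) • fam 0 1
      + (8 * PowerSeries.X ^ 1 : PowerSeries ℚ) • fam 0 2
      + ((-7) * PowerSeries.X ^ 1 : PowerSeries ℚ) • fam 1 0
      + (8 * PowerSeries.X ^ 1 : PowerSeries ℚ) • fam 1 1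
      + ((-9) * PowerSeries.X ^ 1 : PowerSeries ℚ) • fam 2 0
      + ((-4) * PowerSeries.X ^ 2 : PowerSeries ℚ) • fam 0 0
      + ((-16) * PowerSeries.X ^ 2 : PowerSeries ℚ) • fam 0 1
      + (2 * PowerSeries.X ^ 2 : PowerSeries ℚ) • fam 1 0
      + ((-16) * PowerSeries.X ^ 2 : PowerSeries ℚ) • fam 1 1
      + (6 * PowerSeries.X ^ 2 : PowerSeries ℚ) • fam 2 0 : ℕ → PowerSeries ℚ) = 0 := by
    funext n
    have hr := rec1_ps h n
    simp only [Pi.add_apply, Pi.smul_apply, smul_eq_mul, fam, Function.iterate_succ,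
      Function.iterate_zero, Function.comp, id, Pi.zero_apply]
    push_cast at hr ⊢
    linear_combination hr
  have h2 := congrArg (fun f => tt * SmL f) key
  simp only [map_add, map_smul, smul_eq_mul, SmL_fam, map_zero, mul_zero] at h2
  linear_combination h2
    - ((-6)) * tt_SmL 0 2 (by norm_num)
    - (6) * tt_SmL 1 1 (by norm_num)
    - ((-1)) * tt_SmL 2 0 (by norm_num)

theorem rel_E3 (h : Rec3Stmt) :
    (6 * Fs 1 1 + (-7) * Fs 2 0 + 26 * PowerSeries.X ^ 1 * Fs 0 2 + (-30) * PowerSeries.X ^ 1 * Fs 1 1 + 9 * PowerSeries.X ^ 1 * Fs 2 0)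
      + tt * ((-6) * Fs 1 0
        + (-6) * Fs 1 1
        + (-5) * Fs 2 0
        + (-24) * PowerSeries.X ^ 1 * Fs 0 0
        + (-60) * PowerSeries.X ^ 1 * Fs 0 1
        + (-26) * PowerSeries.X ^ 1 * Fs 0 2
        + (-5) * PowerSeries.X ^ 1 * Fs 1 0
        + (-30) * PowerSeries.X ^ 1 * Fs 1 1
        + 14 * PowerSeries.X ^ 1 * Fs 2 0
        + 22 * PowerSeries.X ^ 2 * Fs 0 0
        + 40 * PowerSeries.X ^ 2 * Fs 0 1
        + 15 * PowerSeries.X ^ 2 * Fs 1 0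
        + 40 * PowerSeries.X ^ 2 * Fs 1 1
        + (-7) * PowerSeries.X ^ 2 * Fs 2 0
        + (-4) * PowerSeries.X ^ 3 * Fs 0 0
        + (-6) * PowerSeries.X ^ 3 * Fs 1 0
        + (-2) * PowerSeries.X ^ 3 * Fs 2 0) = 0 := by
  have key : ((6 : PowerSeries ℚ) • (fun n => fam 1 1 (n + 1))
      + ((-7) : PowerSeries ℚ) • (fun n => fam 2 0 (n + 1))
      + (26 * PowerSeries.X ^ 1 : PowerSeries ℚ) • (fun n => fam 0 2 (n + 1))
      + ((-30) * PowerSeries.X ^ 1 : PowerSeries ℚ) • (fun n => fam 1 1 (n + 1))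
      + (9 * PowerSeries.X ^ 1 : PowerSeries ℚ) • (fun n => fam 2 0 (n + 1))
      + ((-6) : PowerSeries ℚ) • fam 1 0
      + ((-6) : PowerSeries ℚ) • fam 1 1
      + ((-5) : PowerSeries ℚ) • fam 2 0
      + ((-24) * PowerSeries.X ^ 1 : PowerSeries ℚ) • fam 0 0
      + ((-60) * PowerSeries.X ^ 1 : PowerSeries ℚ) • fam 0 1
      + ((-26) * PowerSeries.X ^ 1 : PowerSeries ℚ) • fam 0 2
      + ((-5) * PowerSeries.X ^ 1 : PowerSeries ℚ) • fam 1 0
      + ((-30) * PowerSeries.X ^ 1 : PowerSeries ℚ) • fam 1 1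
      + (14 * PowerSeries.X ^ 1 : PowerSeries ℚ) • fam 2 0
      + (22 * PowerSeries.X ^ 2 : PowerSeries ℚ) • fam 0 0
      + (40 * PowerSeries.X ^ 2 : PowerSeries ℚ) • fam 0 1
      + (15 * PowerSeries.X ^ 2 : PowerSeries ℚ) • fam 1 0
      + (40 * PowerSeries.X ^ 2 : PowerSeries ℚ) • fam 1 1
      + ((-7) * PowerSeries.X ^ 2 : PowerSeries ℚ) • fam 2 0
      + ((-4) * PowerSeries.X ^ 3 : PowerSeries ℚ) • fam 0 0
      + ((-6) * PowerSeries.X ^ 3 : PowerSeries ℚ) • fam 1 0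
      + ((-2) * PowerSeries.X ^ 3 : PowerSeries ℚ) • fam 2 0 : ℕ → PowerSeries ℚ) = 0 := by
    funext n
    have hr := rec3_ps h n
    simp only [Pi.add_apply, Pi.smul_apply, smul_eq_mul, fam, Function.iterate_succ,
      Function.iterate_zero, Function.comp, id, Pi.zero_apply]
    push_cast at hr ⊢
    linear_combination hr
  have h2 := congrArg (fun f => tt * SmL f) key
  simp only [map_add, map_smul, smul_eq_mul, SmL_fam, map_zero, mul_zero] at h2
  linear_combination h2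
    - (6) * tt_SmL 1 1 (by norm_num)
    - ((-7)) * tt_SmL 2 0 (by norm_num)
    - (26 * PowerSeries.X ^ 1) * tt_SmL 0 2 (by norm_num)
    - ((-30) * PowerSeries.X ^ 1) * tt_SmL 1 1 (by norm_num)
    - (9 * PowerSeries.X ^ 1) * tt_SmL 2 0 (by norm_num)

theorem rel_E1t (h : Rec1Stmt) :
    ((-6) * Fs 0 3 + 6 * Fs 1 2 + (-1) * Fs 2 1)
      + tt * (6 * Fs 0 0
        + 18 * Fs 0 1
        + 18 * Fs 0 2
        + 6 * Fs 0 3
        + 6 * Fs 1 0
        + 12 * Fs 1 1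
        + 6 * Fs 1 2
        + 3 * Fs 2 0
        + 3 * Fs 2 1
        + 2 * PowerSeries.X ^ 1 * Fs 0 0
        + 18 * PowerSeries.X ^ 1 * Fs 0 1
        + 24 * PowerSeries.X ^ 1 * Fs 0 2
        + 8 * PowerSeries.X ^ 1 * Fs 0 3
        + (-7) * PowerSeries.X ^ 1 * Fs 1 0
        + 1 * PowerSeries.X ^ 1 * Fs 1 1
        + 8 * PowerSeries.X ^ 1 * Fs 1 2
        + (-9) * PowerSeries.X ^ 1 * Fs 2 0
        + (-9) * PowerSeries.X ^ 1 * Fs 2 1
        + (-4) * PowerSeries.X ^ 2 * Fs 0 0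
        + (-20) * PowerSeries.X ^ 2 * Fs 0 1
        + (-16) * PowerSeries.X ^ 2 * Fs 0 2
        + 2 * PowerSeries.X ^ 2 * Fs 1 0
        + (-14) * PowerSeries.X ^ 2 * Fs 1 1
        + (-16) * PowerSeries.X ^ 2 * Fs 1 2
        + 6 * PowerSeries.X ^ 2 * Fs 2 0
        + 6 * PowerSeries.X ^ 2 * Fs 2 1) = 0 := by
  have key : (((-6) : PowerSeries ℚ) • (fun n => fam 0 3 (n + 1))
      + (6 : PowerSeries ℚ) • (fun n => fam 1 2 (n + 1))
      + ((-1) : PowerSeries ℚ) • (fun n => fam 2 1 (n + 1))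
      + (6 : PowerSeries ℚ) • fam 0 0
      + (18 : PowerSeries ℚ) • fam 0 1
      + (18 : PowerSeries ℚ) • fam 0 2
      + (6 : PowerSeries ℚ) • fam 0 3
      + (6 : PowerSeries ℚ) • fam 1 0
      + (12 : PowerSeries ℚ) • fam 1 1
      + (6 : PowerSeries ℚ) • fam 1 2
      + (3 : PowerSeries ℚ) • fam 2 0
      + (3 : PowerSeries ℚ) • fam 2 1
      + (2 * PowerSeries.X ^ 1 : PowerSeries ℚ) • fam 0 0
      + (18 * PowerSeries.X ^ 1 : PowerSeries ℚ) • fam 0 1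
      + (24 * PowerSeries.X ^ 1 : PowerSeries ℚ) • fam 0 2
      + (8 * PowerSeries.X ^ 1 : PowerSeries ℚ) • fam 0 3
      + ((-7) * PowerSeries.X ^ 1 : PowerSeries ℚ) • fam 1 0
      + (1 * PowerSeries.X ^ 1 : PowerSeries ℚ) • fam 1 1
      + (8 * PowerSeries.X ^ 1 : PowerSeries ℚ) • fam 1 2
      + ((-9) * PowerSeries.X ^ 1 : PowerSeries ℚ) • fam 2 0
      + ((-9) * PowerSeries.X ^ 1 : PowerSeries ℚ) • fam 2 1
      + ((-4) * PowerSeries.X ^ 2 : PowerSeries ℚ) • fam 0 0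
      + ((-20) * PowerSeries.X ^ 2 : PowerSeries ℚ) • fam 0 1
      + ((-16) * PowerSeries.X ^ 2 : PowerSeries ℚ) • fam 0 2
      + (2 * PowerSeries.X ^ 2 : PowerSeries ℚ) • fam 1 0
      + ((-14) * PowerSeries.X ^ 2 : PowerSeries ℚ) • fam 1 1
      + ((-16) * PowerSeries.X ^ 2 : PowerSeries ℚ) • fam 1 2
      + (6 * PowerSeries.X ^ 2 : PowerSeries ℚ) • fam 2 0
      + (6 * PowerSeries.X ^ 2 : PowerSeries ℚ) • fam 2 1 : ℕ → PowerSeries ℚ) = 0 := by
    funext n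
    have hr := rec1_ps h n
    simp only [Pi.add_apply, Pi.smul_apply, smul_eq_mul, fam, Function.iterate_succ,
      Function.iterate_zero, Function.comp, id, Pi.zero_apply]
    push_cast at hr ⊢
    linear_combination ((n : PowerSeries ℚ) + 1) * hr
  have h2 := congrArg (fun f => tt * SmL f) key
  simp only [map_add, map_smul, smul_eq_mul, SmL_fam, map_zero, mul_zero] at h2
  linear_combination h2
    - ((-6)) * tt_SmL 0 3 (by norm_num)
    - (6) * tt_SmL 1 2 (by norm_num)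
    - ((-1)) * tt_SmL 2 1 (by norm_num)

theorem rel_E3t (h : Rec3Stmt) :
    (6 * Fs 1 2 + (-7) * Fs 2 1 + 26 * PowerSeries.X ^ 1 * Fs 0 3 + (-30) * PowerSeries.X ^ 1 * Fs 1 2 + 9 * PowerSeries.X ^ 1 * Fs 2 1)
      + tt * ((-6) * Fs 1 0
        + (-12) * Fs 1 1
        + (-6) * Fs 1 2
        + (-5) * Fs 2 0
        + (-5) * Fs 2 1
        + (-24) * PowerSeries.X ^ 1 * Fs 0 0
        + (-84) * PowerSeries.X ^ 1 * Fs 0 1
        + (-86) * PowerSeries.X ^ 1 * Fs 0 2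
        + (-26) * PowerSeries.X ^ 1 * Fs 0 3
        + (-5) * PowerSeries.X ^ 1 * Fs 1 0
        + (-35) * PowerSeries.X ^ 1 * Fs 1 1
        + (-30) * PowerSeries.X ^ 1 * Fs 1 2
        + 14 * PowerSeries.X ^ 1 * Fs 2 0
        + 14 * PowerSeries.X ^ 1 * Fs 2 1
        + 22 * PowerSeries.X ^ 2 * Fs 0 0
        + 62 * PowerSeries.X ^ 2 * Fs 0 1
        + 40 * PowerSeries.X ^ 2 * Fs 0 2
        + 15 * PowerSeries.X ^ 2 * Fs 1 0
        + 55 * PowerSeries.X ^ 2 * Fs 1 1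
        + 40 * PowerSeries.X ^ 2 * Fs 1 2
        + (-7) * PowerSeries.X ^ 2 * Fs 2 0
        + (-7) * PowerSeries.X ^ 2 * Fs 2 1
        + (-4) * PowerSeries.X ^ 3 * Fs 0 0
        + (-4) * PowerSeries.X ^ 3 * Fs 0 1
        + (-6) * PowerSeries.X ^ 3 * Fs 1 0
        + (-6) * PowerSeries.X ^ 3 * Fs 1 1
        + (-2) * PowerSeries.X ^ 3 * Fs 2 0
        + (-2) * PowerSeries.X ^ 3 * Fs 2 1) = 0 := by
  have key : ((6 : PowerSeries ℚ) • (fun n => fam 1 2 (n + 1))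
      + ((-7) : PowerSeries ℚ) • (fun n => fam 2 1 (n + 1))
      + (26 * PowerSeries.X ^ 1 : PowerSeries ℚ) • (fun n => fam 0 3 (n + 1))
      + ((-30) * PowerSeries.X ^ 1 : PowerSeries ℚ) • (fun n => fam 1 2 (n + 1))
      + (9 * PowerSeries.X ^ 1 : PowerSeries ℚ) • (fun n => fam 2 1 (n + 1))
      + ((-6) : PowerSeries ℚ) • fam 1 0
      + ((-12) : PowerSeries ℚ) • fam 1 1
      + ((-6) : PowerSeries ℚ) • fam 1 2
      + ((-5) : PowerSeries ℚ) • fam 2 0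
      + ((-5) : PowerSeries ℚ) • fam 2 1
      + ((-24) * PowerSeries.X ^ 1 : PowerSeries ℚ) • fam 0 0
      + ((-84) * PowerSeries.X ^ 1 : PowerSeries ℚ) • fam 0 1
      + ((-86) * PowerSeries.X ^ 1 : PowerSeries ℚ) • fam 0 2
      + ((-26) * PowerSeries.X ^ 1 : PowerSeries ℚ) • fam 0 3
      + ((-5) * PowerSeries.X ^ 1 : PowerSeries ℚ) • fam 1 0
      + ((-35) * PowerSeries.X ^ 1 : PowerSeries ℚ) • fam 1 1
      + ((-30) * PowerSeries.X ^ 1 : PowerSeries ℚ) • fam 1 2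
      + (14 * PowerSeries.X ^ 1 : PowerSeries ℚ) • fam 2 0
      + (14 * PowerSeries.X ^ 1 : PowerSeries ℚ) • fam 2 1
      + (22 * PowerSeries.X ^ 2 : PowerSeries ℚ) • fam 0 0
      + (62 * PowerSeries.X ^ 2 : PowerSeries ℚ) • fam 0 1
      + (40 * PowerSeries.X ^ 2 : PowerSeries ℚ) • fam 0 2
      + (15 * PowerSeries.X ^ 2 : PowerSeries ℚ) • fam 1 0
      + (55 * PowerSeries.X ^ 2 : PowerSeries ℚ) • fam 1 1
      + (40 * PowerSeries.X ^ 2 : PowerSeries ℚ) • fam 1 2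
      + ((-7) * PowerSeries.X ^ 2 : PowerSeries ℚ) • fam 2 0
      + ((-7) * PowerSeries.X ^ 2 : PowerSeries ℚ) • fam 2 1
      + ((-4) * PowerSeries.X ^ 3 : PowerSeries ℚ) • fam 0 0
      + ((-4) * PowerSeries.X ^ 3 : PowerSeries ℚ) • fam 0 1
      + ((-6) * PowerSeries.X ^ 3 : PowerSeries ℚ) • fam 1 0
      + ((-6) * PowerSeries.X ^ 3 : PowerSeries ℚ) • fam 1 1
      + ((-2) * PowerSeries.X ^ 3 : PowerSeries ℚ) • fam 2 0
      + ((-2) * PowerSeries.X ^ 3 : PowerSeries ℚ) • fam 2 1 : ℕ → PowerSeries ℚ) = 0 := by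
    funext n
    have hr := rec3_ps h n
    simp only [Pi.add_apply, Pi.smul_apply, smul_eq_mul, fam, Function.iterate_succ,
      Function.iterate_zero, Function.comp, id, Pi.zero_apply]
    push_cast at hr ⊢
    linear_combination ((n : PowerSeries ℚ) + 1) * hr
  have h2 := congrArg (fun f => tt * SmL f) key
  simp only [map_add, map_smul, smul_eq_mul, SmL_fam, map_zero, mul_zero] at h2
  linear_combination h2
    - (6) * tt_SmL 1 2 (by norm_num)
    - ((-7)) * tt_SmL 2 1 (by norm_num)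
    - (26 * PowerSeries.X ^ 1) * tt_SmL 0 3 (by norm_num)
    - ((-30) * PowerSeries.X ^ 1) * tt_SmL 1 2 (by norm_num)
    - (9 * PowerSeries.X ^ 1) * tt_SmL 2 1 (by norm_num)

theorem rel_E1x (h : Rec1Stmt) :
    ((-6) * Fs 1 2 + 6 * Fs 2 1 + (-1) * Fs 3 0)
      + tt * (6 * Fs 1 0
        + 12 * Fs 1 1
        + 6 * Fs 1 2
        + 6 * Fs 2 0
        + 6 * Fs 2 1
        + 3 * Fs 3 0
        + 2 * PowerSeries.X ^ 1 * Fs 0 0
        + 16 * PowerSeries.X ^ 1 * Fs 0 1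
        + 8 * PowerSeries.X ^ 1 * Fs 0 2
        + (-5) * PowerSeries.X ^ 1 * Fs 1 0
        + 24 * PowerSeries.X ^ 1 * Fs 1 1
        + 8 * PowerSeries.X ^ 1 * Fs 1 2
        + (-16) * PowerSeries.X ^ 1 * Fs 2 0
        + 8 * PowerSeries.X ^ 1 * Fs 2 1
        + (-9) * PowerSeries.X ^ 1 * Fs 3 0
        + (-8) * PowerSeries.X ^ 2 * Fs 0 0
        + (-32) * PowerSeries.X ^ 2 * Fs 0 1
        + (-48) * PowerSeries.X ^ 2 * Fs 1 1
        + 14 * PowerSeries.X ^ 2 * Fs 2 0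
        + (-16) * PowerSeries.X ^ 2 * Fs 2 1
        + 6 * PowerSeries.X ^ 2 * Fs 3 0) = 0 := by
  have key : (((-6) : PowerSeries ℚ) • (fun n => fam 1 2 (n + 1))
      + (6 : PowerSeries ℚ) • (fun n => fam 2 1 (n + 1))
      + ((-1) : PowerSeries ℚ) • (fun n => fam 3 0 (n + 1))
      + (6 : PowerSeries ℚ) • fam 1 0
      + (12 : PowerSeries ℚ) • fam 1 1
      + (6 : PowerSeries ℚ) • fam 1 2
      + (6 : PowerSeries ℚ) • fam 2 0
      + (6 : PowerSeries ℚ) • fam 2 1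
      + (3 : PowerSeries ℚ) • fam 3 0
      + (2 * PowerSeries.X ^ 1 : PowerSeries ℚ) • fam 0 0
      + (16 * PowerSeries.X ^ 1 : PowerSeries ℚ) • fam 0 1
      + (8 * PowerSeries.X ^ 1 : PowerSeries ℚ) • fam 0 2
      + ((-5) * PowerSeries.X ^ 1 : PowerSeries ℚ) • fam 1 0
      + (24 * PowerSeries.X ^ 1 : PowerSeries ℚ) • fam 1 1
      + (8 * PowerSeries.X ^ 1 : PowerSeries ℚ) • fam 1 2
      + ((-16) * PowerSeries.X ^ 1 : PowerSeries ℚ) • fam 2 0
      + (8 * PowerSeries.X ^ 1 : PowerSeries ℚ) • fam 2 1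
      + ((-9) * PowerSeries.X ^ 1 : PowerSeries ℚ) • fam 3 0
      + ((-8) * PowerSeries.X ^ 2 : PowerSeries ℚ) • fam 0 0
      + ((-32) * PowerSeries.X ^ 2 : PowerSeries ℚ) • fam 0 1
      + ((-48) * PowerSeries.X ^ 2 : PowerSeries ℚ) • fam 1 1
      + (14 * PowerSeries.X ^ 2 : PowerSeries ℚ) • fam 2 0
      + ((-16) * PowerSeries.X ^ 2 : PowerSeries ℚ) • fam 2 1
      + (6 * PowerSeries.X ^ 2 : PowerSeries ℚ) • fam 3 0 : ℕ → PowerSeries ℚ) = 0 := by
    funext n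
    have hr := rec1_ps h n
    replace hr := congrArg th hr
    simp only [pow_succ, pow_zero, one_mul, th_add, th_sub, th_neg, th_zero, th_ofNat_mul, th_mul, th_X,
      th_natCast, zero_mul, zero_add] at hr
    simp only [Pi.add_apply, Pi.smul_apply, smul_eq_mul, fam, Function.iterate_succ,
      Function.iterate_zero, Function.comp, id, Pi.zero_apply]
    push_cast at hr ⊢
    linear_combination hr
  have h2 := congrArg (fun f => tt * SmL f) key
  simp only [map_add, map_smul, smul_eq_mul, SmL_fam, map_zero, mul_zero] at h2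
  linear_combination h2
    - ((-6)) * tt_SmL 1 2 (by norm_num)
    - (6) * tt_SmL 2 1 (by norm_num)
    - ((-1)) * tt_SmL 3 0 (by norm_num)

theorem rel_E3x (h : Rec3Stmt) :
    (6 * Fs 2 1 + (-7) * Fs 3 0 + 26 * PowerSeries.X ^ 1 * Fs 0 2 + (-30) * PowerSeries.X ^ 1 * Fs 1 1 + 26 * PowerSeries.X ^ 1 * Fs 1 2 + 9 * PowerSeries.X ^ 1 * Fs 2 0 + (-30) * PowerSeries.X ^ 1 * Fs 2 1 + 9 * PowerSeries.X ^ 1 * Fs 3 0)
      + tt * ((-6) * Fs 2 0
        + (-6) * Fs 2 1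
        + (-5) * Fs 3 0
        + (-24) * PowerSeries.X ^ 1 * Fs 0 0
        + (-60) * PowerSeries.X ^ 1 * Fs 0 1
        + (-26) * PowerSeries.X ^ 1 * Fs 0 2
        + (-29) * PowerSeries.X ^ 1 * Fs 1 0
        + (-90) * PowerSeries.X ^ 1 * Fs 1 1
        + (-26) * PowerSeries.X ^ 1 * Fs 1 2
        + 9 * PowerSeries.X ^ 1 * Fs 2 0
        + (-30) * PowerSeries.X ^ 1 * Fs 2 1
        + 14 * PowerSeries.X ^ 1 * Fs 3 0
        + 44 * PowerSeries.X ^ 2 * Fs 0 0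
        + 80 * PowerSeries.X ^ 2 * Fs 0 1
        + 52 * PowerSeries.X ^ 2 * Fs 1 0
        + 120 * PowerSeries.X ^ 2 * Fs 1 1
        + 1 * PowerSeries.X ^ 2 * Fs 2 0
        + 40 * PowerSeries.X ^ 2 * Fs 2 1
        + (-7) * PowerSeries.X ^ 2 * Fs 3 0
        + (-12) * PowerSeries.X ^ 3 * Fs 0 0
        + (-22) * PowerSeries.X ^ 3 * Fs 1 0
        + (-12) * PowerSeries.X ^ 3 * Fs 2 0
        + (-2) * PowerSeries.X ^ 3 * Fs 3 0) = 0 := by
  have key : ((6 : PowerSeries ℚ) • (fun n => fam 2 1 (n + 1))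
      + ((-7) : PowerSeries ℚ) • (fun n => fam 3 0 (n + 1))
      + (26 * PowerSeries.X ^ 1 : PowerSeries ℚ) • (fun n => fam 0 2 (n + 1))
      + ((-30) * PowerSeries.X ^ 1 : PowerSeries ℚ) • (fun n => fam 1 1 (n + 1))
      + (26 * PowerSeries.X ^ 1 : PowerSeries ℚ) • (fun n => fam 1 2 (n + 1))
      + (9 * PowerSeries.X ^ 1 : PowerSeries ℚ) • (fun n => fam 2 0 (n + 1))
      + ((-30) * PowerSeries.X ^ 1 : PowerSeries ℚ) • (fun n => fam 2 1 (n + 1))
      + (9 * PowerSeries.X ^ 1 : PowerSeries ℚ) • (fun n => fam 3 0 (n + 1))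
      + ((-6) : PowerSeries ℚ) • fam 2 0
      + ((-6) : PowerSeries ℚ) • fam 2 1
      + ((-5) : PowerSeries ℚ) • fam 3 0
      + ((-24) * PowerSeries.X ^ 1 : PowerSeries ℚ) • fam 0 0
      + ((-60) * PowerSeries.X ^ 1 : PowerSeries ℚ) • fam 0 1
      + ((-26) * PowerSeries.X ^ 1 : PowerSeries ℚ) • fam 0 2
      + ((-29) * PowerSeries.X ^ 1 : PowerSeries ℚ) • fam 1 0
      + ((-90) * PowerSeries.X ^ 1 : PowerSeries ℚ) • fam 1 1
      + ((-26) * PowerSeries.X ^ 1 : PowerSeries ℚ) • fam 1 2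
      + (9 * PowerSeries.X ^ 1 : PowerSeries ℚ) • fam 2 0
      + ((-30) * PowerSeries.X ^ 1 : PowerSeries ℚ) • fam 2 1
      + (14 * PowerSeries.X ^ 1 : PowerSeries ℚ) • fam 3 0
      + (44 * PowerSeries.X ^ 2 : PowerSeries ℚ) • fam 0 0
      + (80 * PowerSeries.X ^ 2 : PowerSeries ℚ) • fam 0 1
      + (52 * PowerSeries.X ^ 2 : PowerSeries ℚ) • fam 1 0
      + (120 * PowerSeries.X ^ 2 : PowerSeries ℚ) • fam 1 1
      + (1 * PowerSeries.X ^ 2 : PowerSeries ℚ) • fam 2 0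
      + (40 * PowerSeries.X ^ 2 : PowerSeries ℚ) • fam 2 1
      + ((-7) * PowerSeries.X ^ 2 : PowerSeries ℚ) • fam 3 0
      + ((-12) * PowerSeries.X ^ 3 : PowerSeries ℚ) • fam 0 0
      + ((-22) * PowerSeries.X ^ 3 : PowerSeries ℚ) • fam 1 0
      + ((-12) * PowerSeries.X ^ 3 : PowerSeries ℚ) • fam 2 0
      + ((-2) * PowerSeries.X ^ 3 : PowerSeries ℚ) • fam 3 0 : ℕ → PowerSeries ℚ) = 0 := by
    funext n
    have hr := rec3_ps h n
    replace hr := congrArg th hr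
    simp only [pow_succ, pow_zero, one_mul, th_add, th_sub, th_neg, th_zero, th_ofNat_mul, th_mul, th_X,
      th_natCast, zero_mul, zero_add] at hr
    simp only [Pi.add_apply, Pi.smul_apply, smul_eq_mul, fam, Function.iterate_succ,
      Function.iterate_zero, Function.comp, id, Pi.zero_apply]
    push_cast at hr ⊢
    linear_combination hr
  have h2 := congrArg (fun f => tt * SmL f) key
  simp only [map_add, map_smul, smul_eq_mul, SmL_fam, map_zero, mul_zero] at h2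
  linear_combination h2
    - (6) * tt_SmL 2 1 (by norm_num)
    - ((-7)) * tt_SmL 3 0 (by norm_num)
    - (26 * PowerSeries.X ^ 1) * tt_SmL 0 2 (by norm_num)
    - ((-30) * PowerSeries.X ^ 1) * tt_SmL 1 1 (by norm_num)
    - (26 * PowerSeries.X ^ 1) * tt_SmL 1 2 (by norm_num)
    - (9 * PowerSeries.X ^ 1) * tt_SmL 2 0 (by norm_num)
    - ((-30) * PowerSeries.X ^ 1) * tt_SmL 2 1 (by norm_num)
    - (9 * PowerSeries.X ^ 1) * tt_SmL 3 0 (by norm_num)

end Pool.Agent.H51.Pi
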