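/-
Module FS of project PI (MP_e49510_nt): the differential equation of order three for
`G(x) = sum_n S_n(x) t^n`, `t = x/(1-2x)`, and the relation for `K(x) = sum_n n S_n(x) t^n`,
as identities of formal power series, from the two recurrences.
-/
import Mathlib
import Pool.Agent.H22.Pi.Defs
import Pool.Agent.H51.Pi.FSalg
import Pool.Agent.H51.Pi.FSser
import Pool.Agent.H51.Pi.FSrec
import Pool.Agent.H51.Pi.FSrel

set_option autoImplicit false

namespace Pool.Agent.H51.Pi

open Pool.Agent.H22.Pi Finset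

theorem three_sub_ne_zero : (3 - 2 * PowerSeries.X : PowerSeries ℚ) ≠ 0 := by
  intro h
  have h2 := congrArg (PowerSeries.coeff 0) h
  have h3 : (3 : PowerSeries ℚ) = PowerSeries.C (3 : ℚ) := (map_ofNat _ 3).symm
  have h4 : (2 : PowerSeries ℚ) = PowerSeries.C (2 : ℚ) := (map_ofNat _ 2).symm
  rw [map_sub, h3, h4, PowerSeries.coeff_C_mul, PowerSeries.coeff_zero_X, PowerSeries.coeff_C]
    at h2
  norm_num at h2

theorem two_ne_zero' : (2 : PowerSeries ℚ) ≠ 0 := by
  intro h
  have h4 : (2 : PowerSeries ℚ) = PowerSeries.C (2 : ℚ) := (map_ofNat _ 2).symm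
  rw [h4] at h
  have := congrArg (PowerSeries.coeff 0) h
  rw [PowerSeries.coeff_C] at this
  norm_num at this

theorem th_Fs1 : th (Fs 0 0) = Fs 1 0 + kap * Fs 0 1 := th_Fs 0 0

theorem th_Fs2 : th (th (Fs 0 0)) = ((2*PowerSeries.X*kap^2)*Fs 0 1
      + (1*kap^2)*Fs 0 2
      + (2*kap)*Fs 1 1
      + (1)*Fs 2 0) := by
  rw [th_Fs1, th_add, th_mul, th_Fs, th_Fs, th_kap]
  ring

theorem th_Fs3 : th (th (th (Fs 0 0))) = ((2*PowerSeries.X*kap^2 + 8*PowerSeries.X^2*kap^3)*Fs 0 1
      + (6*PowerSeries.X*kap^3)*Fs 0 2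
      + (1*kap^3)*Fs 0 3
      + (6*PowerSeries.X*kap^2)*Fs 1 1
      + (3*kap^2)*Fs 1 2
      + (3*kap)*Fs 2 1
      + (1)*Fs 3 0) := by
  rw [th_Fs2]
  simp only [th_add, th_mul, th_Fs, th_kap, th_X, th_two, pow_succ, pow_zero, one_mul,
    zero_mul, zero_add]
  ring

theorem ode (h1 : Rec1Stmt) (h3 : Rec3Stmt) :
    l0 PowerSeries.X * Fs 0 0 + l1 PowerSeries.X * th (Fs 0 0)
      + l2 PowerSeries.X * th (th (Fs 0 0))
      + l3 PowerSeries.X * th (th (th (Fs 0 0))) = 0 := by
  have e1 := rel_E1 h1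
  have e3 := rel_E3 h3
  have e1t := rel_E1t h1
  have e3t := rel_E3t h3
  have e1x := rel_E1x h1
  have e3x := rel_E3x h3
  rw [tt] at e1 e3 e1t e3t e1x e3x
  have h := alg_first (PowerSeries.X : PowerSeries ℚ) kap (Fs 0 0) (Fs 0 1) (Fs 0 2) (Fs 0 3)
    (Fs 1 0) (Fs 1 1) (Fs 1 2) (Fs 2 0) (Fs 2 1) (Fs 3 0) kap_rel
    (by linear_combination e1) (by linear_combination e3) (by linear_combination e1t)
    (by linear_combination e3t) (by linear_combination e1x) (by linear_combination e3x)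
  have hne : (4 * (3 - 2 * PowerSeries.X) ^ 2 : PowerSeries ℚ) ≠ 0 := by
    have h22 : (4 : PowerSeries ℚ) = 2 * 2 := by norm_num
    rw [h22]
    exact mul_ne_zero (mul_ne_zero two_ne_zero' two_ne_zero') (pow_ne_zero _ three_sub_ne_zero)
  rcases mul_eq_zero.1 h with h0 | h0
  · exact absurd h0 hne
  · rw [th_Fs3, th_Fs2, th_Fs1]
    linear_combination h0

/-- The auxiliary series. -/
noncomputable def rho : PowerSeries ℚ :=
  (1 - 3 * PowerSeries.X) * Fs 0 1 - (1 - PowerSeries.X) * Fs 1 0 - PowerSeries.X * Fs 0 0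

theorem th_rho (h1 : Rec1Stmt) (h3 : Rec3Stmt) :
    (1 - 4 * PowerSeries.X ^ 2) * th rho + 2 * PowerSeries.X * rho = 0 := by
  have e1 := rel_E1 h1
  have e3 := rel_E3 h3
  rw [tt] at e1 e3
  have h := alg_second (PowerSeries.X : PowerSeries ℚ) kap (Fs 0 0) (Fs 0 1) (Fs 0 2)
    (Fs 1 0) (Fs 1 1) (Fs 2 0) kap_rel
    (by linear_combination e1) (by linear_combination e3)
  rcases mul_eq_zero.1 h with h0 | h0
  · exact absurd h0 (mul_ne_zero two_ne_zero' three_sub_ne_zero)
  · rw [← h0, rho]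
    have h3' : th (3 : PowerSeries ℚ) = 0 := by
      have h33 : (3 : PowerSeries ℚ) = PowerSeries.C (3 : ℚ) := (map_ofNat _ 3).symm
      rw [h33, th_C]
    simp only [th_sub, th_mul, th_Fs, th_X, th_one, h3', zero_mul, zero_add]
    ring

theorem rho_eq_zero (h1 : Rec1Stmt) (h3 : Rec3Stmt) : rho = 0 := by
  have h := th_rho h1 h3
  have hc : ∀ N : ℕ, PowerSeries.coeff N rho = 0 := by
    intro N
    induction N using Nat.strong_induction_on with
    | _ N ih =>
      rcases Nat.eq_zero_or_pos N with rfl | hN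
      · have c0 : PowerSeries.coeff 0 (Fs 0 1) = 0 := by
          rw [Fs, coeff_Sm _ le_rfl]
          simp [fam]
        have c1 : PowerSeries.coeff 0 (Fs 1 0) = 0 := by
          rw [Fs, coeff_Sm _ le_rfl, zero_add, sum_range_one, fam_zero 1 0 (by norm_num)]
          simp
        rw [rho, map_sub, map_sub, sub_mul, sub_mul, map_sub, map_sub, one_mul, one_mul, c0, c1,
          mul_assoc, PowerSeries.coeff_zero_X_mul, PowerSeries.coeff_zero_X_mul]
        have h33 : (3 : PowerSeries ℚ) = PowerSeries.C (3 : ℚ) := (map_ofNat _ 3).symm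
        rw [h33, PowerSeries.coeff_C_mul, PowerSeries.coeff_zero_X_mul]
        norm_num
      · have hN' := congrArg (PowerSeries.coeff N) h
        rw [sub_mul, one_mul, map_add, map_sub, mul_assoc, mul_assoc, coeff_ofNat_mul,
          coeff_ofNat_mul, coeff_X_pow_mul_if, coeff_X_mul_if, coeff_th,
          ih (N - 1) (by omega), map_zero, ite_self, mul_zero, add_zero] at hN'
        have h4 : (if N < 2 then (0 : ℚ) else PowerSeries.coeff (N - 2) (th rho)) = 0 := by
          split_ifs with h5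
          · rfl
          · rw [coeff_th, ih (N - 2) (by omega), mul_zero]
        rw [h4, mul_zero, sub_zero] at hN'
        have hN0 : (N : ℚ) ≠ 0 := by exact_mod_cast hN.ne'
        exact (mul_eq_zero.1 hN').resolve_left hN0
  ext N
  rw [hc N, map_zero]

theorem fs (h1 : Rec1Stmt) (h3 : Rec3Stmt) : FormalStmt := by
  refine ⟨?_, ?_⟩
  · rw [mk_aco]
    exact ode h1 h3
  · rw [mk_aco, mk_kco, th_Fs1]
    have hr := rho_eq_zero h1 h3
    rw [rho] at hr
    linear_combination (1 - 2 * PowerSeries.X) * hr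
      - (1 - PowerSeries.X) * Fs 0 1 * kap_rel

end Pool.Agent.H51.Pi
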